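import Pool.Agent.Helper82.BR.St

/-! Module FB of project BR: eighteen ordered pairs for every distance. -/

set_option autoImplicit false

namespace Pool.Agent.Helper15.BR

open Pool.Agent.Helper82.BR Finset

theorem hFB (hKF : StKF) : StFB := by
  classical
  intro S hS h c hc p hp hpc
  obtain ⟨d, hd⟩ : ∃ d, d = dist p c := ⟨_, rfl⟩
  have hd0 : 0 < d := by
    rw [hd]
    exact dist_pos.2 hpc
  rw [← hd]
  have hN : ∀ v ∈ S, ∀ u ∈ S, u ≠ v → dist u v = d →
      (S.filter (fun s => dist s v = d)).card = 3 := by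
    intro v hv u hu huv huvd
    have := h v hv u hu huv
    rwa [huvd] at this
  set V := S.filter (fun v => ∃ u ∈ S, u ≠ v ∧ dist u v = d) with hV
  have hV3 : ∀ v ∈ V, (S.filter (fun s => dist s v = d)).card = 3 := by
    intro v hv
    obtain ⟨hvS, u, hu, huv, hud⟩ := Finset.mem_filter.1 hv
    exact hN v hvS u hu huv hud
  have hNV : ∀ v ∈ V, ∀ s ∈ S.filter (fun s => dist s v = d), s ∈ V ∧ s ≠ v := by
    intro v hv s hs
    obtain ⟨hsS, hsd⟩ := Finset.mem_filter.1 hs
    have hne : s ≠ v := by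
      rintro rfl
      rw [dist_self] at hsd
      exact hd0.ne hsd
    refine ⟨Finset.mem_filter.2 ⟨hsS, v, (Finset.mem_filter.1 hv).1, hne.symm, ?_⟩, hne⟩
    rw [dist_comm]
    exact hsd
  set P := S.offDiag.filter (fun x => dist x.1 x.2 = d) with hP
  have hmap : ∀ x ∈ P, x.2 ∈ V := by
    intro x hx
    obtain ⟨h1, h2⟩ := Finset.mem_filter.1 hx
    obtain ⟨a1, a2, a3⟩ := Finset.mem_offDiag.1 h1
    exact Finset.mem_filter.2 ⟨a2, x.1, a1, a3, h2⟩
  have hcard : P.card = 3 * V.card := by
    rw [Finset.card_eq_sum_card_fiberwise hmap]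
    have h0 : ∀ v ∈ V, (P.filter (fun x => x.2 = v)).card = 3 := by
      intro v hv
      rw [← hV3 v hv]
      apply Finset.card_bij (fun x _ => x.1)
      · intro x hx
        obtain ⟨h1, h2⟩ := Finset.mem_filter.1 hx
        obtain ⟨h3, h4⟩ := Finset.mem_filter.1 h1
        obtain ⟨a1, a2, a3⟩ := Finset.mem_offDiag.1 h3
        refine Finset.mem_filter.2 ⟨a1, ?_⟩
        rw [← h2]
        exact h4
      · rintro ⟨x1, x2⟩ hx ⟨y1, y2⟩ hy hxy
        obtain ⟨_, h2⟩ := Finset.mem_filter.1 hx
        obtain ⟨_, h3⟩ := Finset.mem_filter.1 hy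
        simp only at h2 h3 hxy
        rw [h2, h3, hxy]
      · intro s hs
        obtain ⟨hsV, hsv⟩ := hNV v hv s hs
        obtain ⟨hsS, hsd⟩ := Finset.mem_filter.1 hs
        refine ⟨(s, v), ?_, rfl⟩
        exact Finset.mem_filter.2 ⟨Finset.mem_filter.2
          ⟨Finset.mem_offDiag.2 ⟨hsS, (Finset.mem_filter.1 hv).1, hsv⟩, hsd⟩, rfl⟩
    rw [Finset.sum_congr rfl h0, Finset.sum_const, smul_eq_mul, mul_comm]
  have heven : Even P.card := by
    have h1 : ((P.card : ℕ) : ZMod 2) = 0 := by
      have h2 : ∑ x ∈ P, (1 : ZMod 2) = 0 := by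
        refine Finset.sum_involution (fun x _ => (x.2, x.1)) ?_ ?_ ?_ ?_
        · intro _ _
          decide
        · intro x hx _ heq
          have h3 := (Finset.mem_offDiag.1 (Finset.mem_filter.1 hx).1).2.2
          exact h3 (congrArg Prod.snd heq)
        · intro x hx
          obtain ⟨h3, h4⟩ := Finset.mem_filter.1 hx
          obtain ⟨a1, a2, a3⟩ := Finset.mem_offDiag.1 h3
          refine Finset.mem_filter.2 ⟨Finset.mem_offDiag.2 ⟨a2, a1, a3.symm⟩, ?_⟩
          rw [dist_comm]
          exact h4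
        · intro x hx
          rfl
      simpa using h2
    exact (ZMod.natCast_eq_zero_iff_even).1 h1
  have hcV : c ∈ V := Finset.mem_filter.2 ⟨hc, p, hp, hpc, hd.symm⟩
  have h4 : 4 ≤ V.card := by
    have h5 : insert c (S.filter (fun s => dist s c = d)) ⊆ V := by
      intro s hs
      rcases Finset.mem_insert.1 hs with rfl | hs
      · exact hcV
      · exact (hNV c hcV s hs).1
    have h6 := Finset.card_le_card h5
    rw [Finset.card_insert_of_notMem, hV3 c hcV] at h6
    · omega
    · intro hcc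
      exact (hNV c hcV c hcc).2 rfl
  have h7 : V.card ≤ 7 := le_trans (Finset.card_filter_le _ _) hS
  have hne4 : V.card ≠ 4 := by
    intro h44
    have hall : ∀ v ∈ V, ∀ s ∈ V, s ≠ v → dist s v = d := by
      intro v hv s hs hsv
      have h8 : S.filter (fun s => dist s v = d) ⊆ V.erase v := by
        intro s hs
        exact Finset.mem_erase.2 ⟨(hNV v hv s hs).2, (hNV v hv s hs).1⟩
      have h9 : S.filter (fun s => dist s v = d) = V.erase v := by
        apply Finset.eq_of_subset_of_card_le h8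
        rw [Finset.card_erase_of_mem hv, h44, hV3 v hv]
      have h10 : s ∈ S.filter (fun s => dist s v = d) := by
        rw [h9]
        exact Finset.mem_erase.2 ⟨hsv, hs⟩
      exact (Finset.mem_filter.1 h10).2
    have h10 : (V.erase c).card = 3 := by rw [Finset.card_erase_of_mem hcV, h44]
    obtain ⟨x, y, z, hxy, hxz, hyz, hset⟩ := Finset.card_eq_three.1 h10
    have mx : x ∈ V.erase c := by rw [hset]; simp
    have my : y ∈ V.erase c := by rw [hset]; simp
    have mz : z ∈ V.erase c := by rw [hset]; simp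
    rw [Finset.mem_erase] at mx my mz
    exact hKF c x y z d hd0 (hall x mx.2 c hcV mx.1.symm) (hall y my.2 c hcV my.1.symm)
      (hall z mz.2 c hcV mz.1.symm) (hall y my.2 x mx.2 hxy) (hall z mz.2 x mx.2 hxz)
      (hall z mz.2 y my.2 hyz)
  rw [hcard] at heven ⊢
  obtain ⟨m, hm⟩ := heven
  omega

end Pool.Agent.Helper15.BR
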